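import Pool.Agent.Helper12.NK.St

/-!
# Project NK (MP_d63854_co): module INS, a new vertex in a face
-/

set_option autoImplicit false

namespace Pool.Agent.Helper30.NK

open Pool.Agent.Helper12.NK
open Pool.Agent.Helper51.AJ (IsMinor Planar Apex ExMinor Con Tch con_singleton)
open Pool.Agent.Helper35.PM (Rot)

theorem hINS (hPTR : StPTR) (hKUR : StKUR) (hFAC : StFAC) (hPLU : StPLU) (hRPW : StRPW) : StINS := by
  intro V _ G U F N y hK hP hF hN hy
  obtain ⟨R⟩ := hKUR V G U hK hP
  obtain ⟨d, hd⟩ := hFAC V G U R hK F hF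
  classical
  have hfin : Finite (rst G U).Dart :=
    Finite.of_injective (fun e : (rst G U).Dart => e.toProd) SimpleGraph.Dart.toProd_injective
  have hpl : Planar (rplus R) := hRPW _ (rplus R) (hPLU V (rst G U) R)
  have hyN : y ∉ N := by
    intro h
    have h1 := hN h
    rw [← hd] at h1
    obtain ⟨e, _, he⟩ := h1
    exact hy (he ▸ e.adj.2.1)
  refine hPTR V _ (add (rst G U) y N) (rplus R)
    (fun a => if a = y then {Sum.inr (Quotient.mk _ d)} else {Sum.inl a}) ?_ ?_ ?_ hpl
  · intro a a' _
    by_cases h : a = y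
    · simp only [h, if_true]
      exact con_singleton _ _
    · simp only [h, if_false]
      exact con_singleton _ _
  · intro a a' b b' hab _ _
    by_cases h : a = y
    · have hb : b ≠ y := fun h' => hab (h.trans h'.symm)
      simp only [h, hb, if_true, if_false]
      rw [Set.disjoint_singleton]
      exact Sum.inr_ne_inl
    · by_cases hb : b = y
      · simp only [h, hb, if_true, if_false]
        rw [Set.disjoint_singleton]
        exact Sum.inl_ne_inr
      · simp only [h, hb, if_false]
        rw [Set.disjoint_singleton]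
        exact fun h' => hab (Sum.inl_injective h')
  · have key : ∀ b ∈ N, ∃ e : (rst G U).Dart,
        (Quotient.mk _ e : Quotient (Equiv.Perm.SameCycle.setoid R.φ)) = Quotient.mk _ d ∧ e.fst = b := by
      intro b hb
      have h1 := hN hb
      rw [← hd] at h1
      obtain ⟨e, he, hb'⟩ := h1
      exact ⟨e, Quotient.sound he.symm, hb'⟩
    intro a a' h
    rcases h with h | ⟨h1, h2, h3⟩ | ⟨h1, h2, h3⟩
    · have ha : a ≠ y := fun h' => hy (h' ▸ h.2.1)
      have ha' : a' ≠ y := fun h' => hy (h' ▸ h.2.2)
      simp only [ha, ha', if_false]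
      exact ⟨_, rfl, _, rfl, h⟩
    · simp only [h1, h3, if_true, if_false]
      exact ⟨_, rfl, _, rfl, key a' h2⟩
    · simp only [h1, h3, if_true, if_false]
      exact ⟨_, rfl, _, rfl, key a h2⟩

end Pool.Agent.Helper30.NK
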